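import Pool.Agent.H107R3.Inh.Po
import Pool.Agent.H310R3.Bridge

/-! BPI gives choice sets for involutions without fixed points. -/

set_option linter.all false

namespace Pool.Agent.H107R3.Inh

open FirstOrder FirstOrder.Language
open Pool.Agent.Helper672.ZFA
open Pool.Agent.H310Cards
open Pool.Agent.H310R3.Inh
open Pool.Agent.Helper672.Plain (LSet)

universe u

section

variable {M : Type 1} [L.Structure M] [hM : IsModel M] {α : Type 1} [ITy M α]

/-- the poset of the partial choice sets -/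
def pP (i : α → α) (hi : IntF M i) : Po M (IPow M α) where
  le := fun t t' => ∀ a, a ∈ t → a ∈ t'
  V := fun t => ∀ a, a ∈ t → ¬ i a ∈ t
  hle := Int.all (p := fun (q : IPow M α × IPow M α) a => a ∈ q.1 → a ∈ q.2)
    (Int.imp (Int.mem IntF.snd' (IntF.fst IntF.fst')) (Int.mem IntF.snd' (IntF.snd IntF.fst')))
  hV := Int.all (p := fun (t : IPow M α) a => a ∈ t → ¬ i a ∈ t)
    (Int.imp (Int.mem IntF.snd' IntF.fst')
      (Helper672.ZFA.Int.not (Int.mem (hi.comp IntF.snd') IntF.fst')))
  refl := fun t a h => h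
  tr := fun a b c h h' x hx => h' x (h x hx)

theorem int_q (i : α → α) (hi : IntF M i) : Int M (fun q : α × IPow M α =>
    (pP i hi).V q.2 ∧ q.1 ∈ q.2) :=
  Int.and (Int.comp (pP i hi).hV IntF.snd') (Int.mem IntF.fst' IntF.snd')

/-- the open set given by `a` -/
def pU (i : α → α) (hi : IntF M i) (a : α) : (pP i hi).H :=
  ⟨⟨fun t => (pP i hi).V t ∧ a ∈ t, Int.and (pP i hi).hV
    (Int.mem (IntF.const a) IntF.id)⟩,
    fun t h => h.1, fun t t' h hv hl => ⟨hv, hl a h.2⟩⟩

theorem mem_pU (i : α → α) (hi : IntF M i) (a : α) (t : IPow M α) :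
    t ∈ (pU i hi a).1 ↔ (pP i hi).V t ∧ a ∈ t := Iff.rfl

theorem pU_compl (i : α → α) (hi : IntF M i) (hii : ∀ a, i (i a) = a) (hne : ∀ a, i a ≠ a)
    (a : α) : (pU i hi a)ᶜ = pU i hi (i a) := by
  have h4 : ((pU i hi a)ᶜ : (pP i hi).H).1 = (pU i hi (i a)).1 := by
    refine IPow.ext' fun t => ?_
    rw [Po.mem_compl, mem_pU]
    constructor
    · rintro ⟨hV, h⟩
      refine ⟨hV, ?_⟩
      by_contra hia
      let t' : IPow M α := ⟨fun b => b ∈ t ∨ b = a, Int.or t.int_mem (Int.eq IntF.id (IntF.const a))⟩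
      have ht' : ∀ b, b ∈ t' ↔ (b ∈ t ∨ b = a) := fun b => Iff.rfl
      have hV' : (pP i hi).V t' := by
        intro b hb hb'
        rw [ht'] at hb hb'
        rcases hb with hb | rfl
        · rcases hb' with hb' | hb'
          · exact hV b hb hb'
          · apply hia
            rw [← hb', hii]
            exact hb
        · rcases hb' with hb' | hb'
          · exact hia hb'
          · exact hne _ hb'
      exact h t' hV' (fun b hb => Or.inl hb) ⟨hV', (ht' a).2 (Or.inr rfl)⟩
    · rintro ⟨hV, h⟩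
      refine ⟨hV, fun t' hV' hle hm => ?_⟩
      exact hV' a hm.2 (hle _ h)
  exact Subtype.ext h4

/-- the element of the regular open algebra given by `a` -/
def pX (i : α → α) (hi : IntF M i) (hii : ∀ a, i (i a) = a) (hne : ∀ a, i a ≠ a)
    (a : α) : (pP i hi).X :=
  ⟨pU i hi a, by
    change (pU i hi a)ᶜᶜ = pU i hi a
    rw [pU_compl i hi hii hne, pU_compl i hi hii hne, hii]⟩

theorem pX_compl (i : α → α) (hi : IntF M i) (hii : ∀ a, i (i a) = a) (hne : ∀ a, i a ≠ a)
    (a : α) : (pX i hi hii hne a)ᶜ = pX i hi hii hne (i a) := by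
  apply Heyting.Regular.coe_injective
  rw [Heyting.Regular.coe_compl]
  exact pU_compl i hi hii hne a

theorem intF_pX (i : α → α) (hi : IntF M i) (hii : ∀ a, i (i a) = a) (hne : ∀ a, i a ≠ a) :
    IntF M (pX i hi hii hne) := by
  refine IntF.ofInj_iff (pP i hi).e (pP i hi).e_inj (pP i hi).e_hr ?_
  have h1 := IntF.sep (p := fun a t => (pP i hi).V t ∧ a ∈ t) (int_q i hi)
  have h2 : (fun a => sep M (fun t => (pP i hi).V t ∧ a ∈ t)) =
      fun a => (pP i hi).e (pX i hi hii hne a) := by
    funext a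
    refine IPow.ext' fun t => ?_
    exact mem_sep (Int.slice (p := fun a t => (pP i hi).V t ∧ a ∈ t) (int_q i hi) a)
  rw [h2] at h1
  exact h1

instance nontrivial_pX (i : α → α) (hi : IntF M i) : Nontrivial (pP i hi).X := by
  refine ⟨⊥, ⊤, fun h => ?_⟩
  have h1 := congrArg (fun x : (pP i hi).X => (x : (pP i hi).H)) h
  simp only [Heyting.Regular.coe_bot, Heyting.Regular.coe_top] at h1
  let t : IPow M α := ⟨fun _ => False, Int.const False⟩
  have h2 : t ∈ (⊤ : (pP i hi).H).1 := by
    rw [Po.mem_top]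
    intro a ha
    exact (ha : False).elim
  rw [← h1] at h2
  exact h2

end

section

attribute [local instance] Helper672.Plain.toL

local instance instModelInh107 {M : Type u} [LSet.Structure M] [Helper672.Plain.Zermelo M] :
    IsModel M := Helper672.Plain.isModel_toL

theorem bpi_type {N : Type 1} [LSet.Structure N] [Helper672.Plain.Zermelo N] (hB : BPI N)
    (X : Type 1) [ITy N X] [BooleanAlgebra X] [Nontrivial X]
    (hle : Int N (fun q : X × X => q.1 ≤ q.2)) :
    ∃ I : X → Prop, Int N I ∧ I ⊥ ∧ ¬ I ⊤ ∧ (∀ x y, I x → I y → I (x ⊔ y)) ∧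
      (∀ x y, I (x ⊓ y) → I x ∨ I y) := by
  obtain ⟨r, hr⟩ := hle
  let g : X → Helper672.Plain.El (dom N X) := fun x =>
    ⟨code (M := N) x, Helper672.Plain.mem_toL.1 (code_mem_dom (M := N) x)⟩
  have hg : Function.Bijective g := by
    constructor
    · intro x y h
      exact ITy.inj (M := N) (congrArg Subtype.val h)
    · rintro ⟨z, hz⟩
      obtain ⟨a, ha⟩ := (mem_dom (M := N) (α := X)).1 (Helper672.Plain.mem_toL.2 hz)
      exact ⟨a, Subtype.ext ha⟩
  let e : Helper672.Plain.El (dom N X) ≃ X := (Equiv.ofBijective g hg).symm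
  have he : ∀ x, e (g x) = x := fun x => (Equiv.ofBijective g hg).symm_apply_apply x
  have heg : ∀ x, g (e x) = x := fun x => (Equiv.ofBijective g hg).apply_symm_apply x
  have hmap : ∀ x, code (M := N) (e x) = x.1 := fun x => congrArg Subtype.val (heg x)
  let B : BooleanAlgebra (Helper672.Plain.El (dom N X)) := e.booleanAlgebra
  have hn : Nontrivial (Helper672.Plain.El (dom N X)) := e.nontrivial
  have hle' : ∀ x y : Helper672.Plain.El (dom N X), x ≤ y ↔ App r x.1 y.1 := by
    intro x y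
    have h1 : x ≤ y ↔ e x ≤ e y := Iff.rfl
    rw [h1, H310.app_iff, ← hmap x, ← hmap y]
    exact (hr (e x, e y)).symm
  obtain ⟨i, hi⟩ := hB (dom N X) r B hn hle'
  refine ⟨fun x => Mem (code x) i, ⟨i, fun _ => Iff.rfl⟩, ?_, ?_, ?_, ?_⟩
  · exact hi.bot
  · exact hi.top
  · intro x y hx hy
    have h := hi.sup (g x) (g y) hx hy
    have h2 : (g x ⊔ g y).1 = code (M := N) (e (g x) ⊔ e (g y)) := rfl
    rw [h2, he, he] at h
    exact h
  · intro x y hxy
    have h2 : (g x ⊓ g y).1 = code (M := N) (e (g x) ⊓ e (g y)) := rfl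
    rw [he, he] at h2
    refine hi.prime (g x) (g y) ?_
    rw [h2]
    exact hxy

theorem taskBPI : TaskBPI := by
  intro N _ _ hB α _ i hi hii hne
  obtain ⟨I, hI, h0, h1, hs, hp⟩ := bpi_type hB (pP i hi).X (pP i hi).int_le
  refine ⟨fun a => I (pX i hi hii hne a), Int.comp hI (intF_pX i hi hii hne), fun a => ?_⟩
  have h2 := pX_compl i hi hii hne a
  constructor
  · intro h3 h4
    have h5 := hs _ _ h3 h4
    rw [← h2, sup_compl_eq_top] at h5
    exact h1 h5
  · intro h3
    have h4 := hp (pX i hi hii hne a) (pX i hi hii hne a)ᶜ (by rw [inf_compl_eq_bot]; exact h0)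
    rw [h2] at h4
    exact h4.resolve_right h3

end

end Pool.Agent.H107R3.Inh
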