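import Pool.Agent.H310R3.Inh.Stmts
import Mathlib.Order.Heyting.Regular

/-! The algebra of the regular open sets of an internal preorder. -/

set_option linter.all false

namespace Pool.Agent.H107R3.Inh

open FirstOrder FirstOrder.Language
open Pool.Agent.Helper672.ZFA

/-- an internal preorder, on an internal predicate -/
structure Po (M : Type 1) [L.Structure M] [IsModel M] (σ : Type 1) [ITy M σ] where
  le : σ → σ → Prop
  V : σ → Prop
  hle : Int M (fun q : σ × σ => le q.1 q.2)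
  hV : Int M V
  refl : ∀ t, le t t
  tr : ∀ a b c, le a b → le b c → le a c

variable {M : Type 1} [L.Structure M] [hM : IsModel M] {σ : Type 1} [ITy M σ]

/-- upper sets -/
def Po.Up (P : Po M σ) (U : IPow M σ) : Prop :=
  (∀ t, t ∈ U → P.V t) ∧ ∀ t t', t ∈ U → P.V t' → P.le t t' → t' ∈ U

/-- the type of the upper sets -/
def Po.H (P : Po M σ) : Type 1 := {U : IPow M σ // P.Up U}

variable (P : Po M σ)

instance poH : PartialOrder P.H where
  le U W := ∀ t, t ∈ U.1 → t ∈ W.1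
  le_refl U t h := h
  le_trans U V W h h' t ht := h' t (h t ht)
  le_antisymm U W h h' := Subtype.ext (IPow.ext' fun t => ⟨h t, h' t⟩)

theorem Po.le_iff {P : Po M σ} {U W : P.H} : U ≤ W ↔ ∀ t, t ∈ U.1 → t ∈ W.1 := Iff.rfl

def Po.sup (U W : P.H) : P.H := ⟨⟨fun t => t ∈ U.1 ∨ t ∈ W.1, Int.or U.1.int_mem W.1.int_mem⟩,
  fun t h => h.elim (U.2.1 t) (W.2.1 t),
  fun t t' h hv hl => h.elim (fun h => Or.inl (U.2.2 t t' h hv hl))
    (fun h => Or.inr (W.2.2 t t' h hv hl))⟩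

def Po.inf (U W : P.H) : P.H := ⟨⟨fun t => t ∈ U.1 ∧ t ∈ W.1, Int.and U.1.int_mem W.1.int_mem⟩,
  fun t h => U.2.1 t h.1,
  fun t t' h hv hl => ⟨U.2.2 t t' h.1 hv hl, W.2.2 t t' h.2 hv hl⟩⟩

theorem Po.int_himp {P : Po M σ} (U W : IPow M σ) : Int M (fun t => P.V t ∧
    ∀ t', P.V t' → P.le t t' → t' ∈ U → t' ∈ W) := by
  refine Int.and P.hV (Int.all (p := fun t t' => P.V t' → P.le t t' → t' ∈ U → t' ∈ W) ?_)
  exact Int.imp (Int.comp P.hV IntF.snd') (Int.imp P.hle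
    (Int.imp (Int.comp U.int_mem IntF.snd') (Int.comp W.int_mem IntF.snd')))

def Po.himp (U W : P.H) : P.H := ⟨⟨fun t => P.V t ∧
    ∀ t', P.V t' → P.le t t' → t' ∈ U.1 → t' ∈ W.1, Po.int_himp U.1 W.1⟩,
  fun t h => h.1,
  fun t t' h hv hl => ⟨hv, fun t'' hv' hl' => h.2 t'' hv' (P.tr _ _ _ hl hl')⟩⟩

instance poHD : DistribLattice P.H where
  __ := poH P
  sup := P.sup
  inf := P.inf
  le_sup_left U W t h := Or.inl h
  le_sup_right U W t h := Or.inr h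
  sup_le U W X h h' t ht := ht.elim (h t) (h' t)
  inf_le_left U W t h := h.1
  inf_le_right U W t h := h.2
  le_inf U W X h h' t ht := ⟨h t ht, h' t ht⟩
  le_sup_inf U W X t ht := by
    obtain ⟨h1, h2⟩ := ht
    rcases h1 with h1 | h1
    · exact Or.inl h1
    · rcases h2 with h2 | h2
      · exact Or.inl h2
      · exact Or.inr ⟨h1, h2⟩

instance poHB : BoundedOrder P.H where
  top := ⟨⟨P.V, P.hV⟩, fun t h => h, fun t t' _ hv _ => hv⟩
  le_top U t h := U.2.1 t h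
  bot := ⟨⟨fun _ => False, Int.const False⟩, fun t h => h.elim, fun t t' h _ _ => h.elim⟩
  bot_le U t h := h.elim

instance poHH : HeytingAlgebra P.H := HeytingAlgebra.ofHImp P.himp (fun a b c => by
  constructor
  · rintro h t ⟨ha, hb⟩
    exact (h t ha).2 t (a.2.1 t ha) (P.refl t) hb
  · intro h t ha
    exact ⟨a.2.1 t ha, fun t' hV hle hb => h t' ⟨a.2.2 t t' ha hV hle, hb⟩⟩)

theorem Po.mem_compl {P : Po M σ} {U : P.H} {t : σ} : t ∈ (Uᶜ : P.H).1 ↔
    P.V t ∧ ∀ t', P.V t' → P.le t t' → ¬ t' ∈ U.1 := Iff.rfl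

theorem Po.mem_top {P : Po M σ} {t : σ} : t ∈ (⊤ : P.H).1 ↔ P.V t := Iff.rfl

theorem Po.mem_bot {P : Po M σ} {t : σ} : t ∈ (⊥ : P.H).1 ↔ False := Iff.rfl

theorem Po.mem_inf {P : Po M σ} {U W : P.H} {t : σ} : t ∈ (U ⊓ W : P.H).1 ↔ t ∈ U.1 ∧ t ∈ W.1 :=
  Iff.rfl

/-- the regular open algebra -/
abbrev Po.X (P : Po M σ) : Type 1 := Heyting.Regular P.H

/-- the underlying set -/
def Po.e (P : Po M σ) (x : P.X) : IPow M σ := (x : P.H).1

theorem Po.e_inj : Function.Injective P.e := by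
  intro x y h
  exact Heyting.Regular.coe_injective (Subtype.ext h)

/-- regular open sets -/
def Po.Reg (P : Po M σ) (U : IPow M σ) : Prop :=
  P.Up U ∧ ∀ t, (t ∈ U ↔ (P.V t ∧ ∀ t', P.V t' → P.le t t' →
    ¬ (P.V t' ∧ ∀ t'', P.V t'' → P.le t' t'' → ¬ t'' ∈ U)))

theorem Po.e_range (U : IPow M σ) : (∃ x, P.e x = U) ↔ P.Reg U := by
  constructor
  · rintro ⟨x, rfl⟩
    refine ⟨(x : P.H).2, fun t => ?_⟩
    have h1 : ((x : P.H)ᶜᶜ : P.H) = x := x.2
    have h2 : t ∈ (x : P.H).1 ↔ t ∈ ((x : P.H)ᶜᶜ : P.H).1 := by rw [h1]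
    exact h2
  · rintro ⟨h1, h2⟩
    let u : P.H := ⟨U, h1⟩
    have h3 : (uᶜᶜ : P.H) = u := by
      have h4 : (uᶜᶜ : P.H).1 = u.1 := IPow.ext' fun t => (h2 t).symm
      exact Subtype.ext h4
    exact ⟨⟨u, h3⟩, rfl⟩

theorem Po.int_up : Int M P.Up := by
  have hV := P.hV
  refine Int.and (Int.all (p := fun (U : IPow M σ) t => t ∈ U → P.V t) ?_)
    (Int.all (p := fun (U : IPow M σ) t => ∀ t', t ∈ U → P.V t' → P.le t t' → t' ∈ U) ?_)
  · exact Int.imp (Int.mem IntF.snd' IntF.fst') (Int.comp P.hV IntF.snd')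
  · refine Int.all (p := fun (q : IPow M σ × σ) t' => q.2 ∈ q.1 → P.V t' → P.le q.2 t' → t' ∈ q.1) ?_
    refine Int.imp (Int.mem (IntF.snd IntF.fst') (IntF.fst IntF.fst')) (Int.imp
      (Int.comp P.hV IntF.snd') (Int.imp ?_ (Int.mem IntF.snd' (IntF.fst IntF.fst'))))
    exact Int.comp₂ P.hle (IntF.snd IntF.fst') IntF.snd'

theorem Po.int_reg : Int M P.Reg := by
  refine Int.and P.int_up (Int.all (p := fun (U : IPow M σ) t => (t ∈ U ↔ (P.V t ∧
    ∀ t', P.V t' → P.le t t' → ¬ (P.V t' ∧ ∀ t'', P.V t'' → P.le t' t'' → ¬ t'' ∈ U)))) ?_)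
  refine Int.iff (Int.mem IntF.snd' IntF.fst') (Int.and (Int.comp P.hV IntF.snd') ?_)
  refine Int.all (p := fun (q : IPow M σ × σ) t' => P.V t' → P.le q.2 t' →
    ¬ (P.V t' ∧ ∀ t'', P.V t'' → P.le t' t'' → ¬ t'' ∈ q.1)) ?_
  refine Int.imp (Int.comp P.hV IntF.snd') (Int.imp
    (Int.comp₂ P.hle (IntF.snd IntF.fst') IntF.snd') (Helper672.ZFA.Int.not (Int.and
      (Int.comp P.hV IntF.snd') ?_)))
  refine Int.all (p := fun (q : (IPow M σ × σ) × σ) t'' => P.V t'' → P.le q.2 t'' →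
    ¬ t'' ∈ q.1.1) ?_
  exact Int.imp (Int.comp P.hV IntF.snd') (Int.imp
    (Int.comp₂ P.hle (IntF.snd IntF.fst') IntF.snd')
    (Helper672.ZFA.Int.not (Int.mem IntF.snd' (IntF.fst (IntF.fst IntF.fst')))))

theorem Po.e_hr : Int M (fun U => ∃ x, P.e x = U) :=
  P.int_reg.congr fun U => (P.e_range U).symm

/-- the internal type of the regular open sets -/
noncomputable instance poITy : ITy M P.X := ITy.ofInj P.e P.e_inj P.e_hr

theorem Po.intF_e : IntF M P.e := IntF.ofInj P.e P.e_inj P.e_hr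

theorem Po.code_e (x : P.X) : code (M := M) x = code (M := M) (P.e x) := rfl

theorem Po.int_le : Int M (fun q : P.X × P.X => q.1 ≤ q.2) := by
  have h : Int M (fun q : P.X × P.X => ∀ t, t ∈ P.e q.1 → t ∈ P.e q.2) := by
    refine Int.all (p := fun (q : P.X × P.X) t => t ∈ P.e q.1 → t ∈ P.e q.2) ?_
    exact Int.imp (Int.mem IntF.snd' (P.intF_e.comp (IntF.fst IntF.fst')))
      (Int.mem IntF.snd' (P.intF_e.comp (IntF.snd IntF.fst')))
  exact h.congr fun q => Iff.rfl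

end Pool.Agent.H107R3.Inh
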